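import Pool.Agent.H40.ISH.Stmts2
import Pool.Agent.H8.ISH.CLB

/-! Project ISH, part 2, module CLS: the sharp lower bound for the canonical partition
function. -/

set_option autoImplicit false
set_option linter.unusedVariables false

namespace Pool.ISH

open MeasureTheory Filter Topology
open scoped Classical Pointwise

/-- good configurations carry half of the weight -/
theorem cls_good (hT1 : TY1Stmt) (hT2 : TY2Stmt) : ∃ K : ℕ, ∀ θ : ℝ, 0 < θ → ∃ β₀ : ℝ,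
    ∀ β ≥ β₀, ∃ N₀ : ℕ, ∀ N ≥ N₀, ZZ β N (Vb N).powerset ≤
      2 * ZZ β N ((Vb N).powerset.filter
        (fun A => lg N A ≤ K * N ^ 2 ∧ (sm N A : ℝ) ≤ θ * (N : ℝ) ^ 3)) := by
  obtain ⟨C₁, β₁, hC₁, hT1⟩ := hT1
  obtain ⟨K, hK⟩ := exists_nat_ge (C₁ + 2)
  refine ⟨K, fun θ hθ => ?_⟩
  obtain ⟨β₂, hT2⟩ := hT2 (θ / 2) (by linarith)
  refine ⟨max (max β₁ β₂) 1, fun β hβ => ?_⟩
  have hb1 : β₁ ≤ β := le_trans (le_trans (le_max_left _ _) (le_max_left _ _)) hβ
  have hb2 : β₂ ≤ β := le_trans (le_trans (le_max_right _ _) (le_max_left _ _)) hβ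
  have hb3 : 1 ≤ β := le_trans (le_max_right _ _) hβ
  obtain ⟨N₁, hN₁⟩ := exists_nat_ge (4 / θ)
  refine ⟨max 1 N₁, fun N hN => ?_⟩
  have hn1 : 1 ≤ N := le_trans (le_max_left _ _) hN
  have hn3 : N₁ ≤ N := le_trans (le_max_right _ _) hN
  have hNr : (1 : ℝ) ≤ N := by exact_mod_cast hn1
  set Z := ZZ β N (Vb N).powerset with hZ
  -- the two bad events
  have hbad1 : ZZ β N ((Vb N).powerset.filter
      (fun A => (C₁ + 2) * β * (N : ℝ) ^ 2 < β * lg N A)) ≤ 1 / 4 * Z := by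
    refine h8_markov β N (fun A => β * lg N A) _ (C₁ * β * (N : ℝ) ^ 2) (hT1 β hb1 N hn1) ?_
    have h1 : 1 ≤ β * (N : ℝ) ^ 2 := by
      have : (1 : ℝ) ≤ (N : ℝ) ^ 2 := by nlinarith
      nlinarith
    nlinarith
  have hLg : (Lg N : ℝ) ≤ N := by
    have : Nat.log 2 N < N := Nat.log_lt_self 2 (by omega)
    unfold Lg
    exact_mod_cast this
  have hLg0 : (0 : ℝ) < Lg N := by
    unfold Lg
    positivity
  have hbad2 : ZZ β N ((Vb N).powerset.filter
      (fun A => θ * (N : ℝ) ^ 3 / Lg N < (sm N A : ℝ) / Lg N)) ≤ 1 / 4 * Z := by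
    refine h8_markov β N (fun A => (sm N A : ℝ) / Lg N) _ (θ / 2 * (N : ℝ) ^ 3 / Lg N)
      (hT2 β hb2 N hn1) ?_
    have h1 : θ / 2 * (N : ℝ) ^ 2 ≤ θ / 2 * (N : ℝ) ^ 3 / Lg N := by
      rw [le_div_iff₀ hLg0]
      have : θ / 2 * (N : ℝ) ^ 2 * (Lg N : ℝ) ≤ θ / 2 * (N : ℝ) ^ 2 * N :=
        mul_le_mul_of_nonneg_left hLg (by positivity)
      calc _ ≤ _ := this
        _ = _ := by ring
    have h2 : 2 ≤ θ / 2 * (N : ℝ) ^ 2 := by
      have h3 : 4 / θ ≤ N := hN₁.trans (by exact_mod_cast hn3)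
      rw [div_le_iff₀ hθ] at h3
      have h4 : (N : ℝ) ≤ (N : ℝ) ^ 2 := by nlinarith
      nlinarith
    have h3 : θ * (N : ℝ) ^ 3 / Lg N = θ / 2 * (N : ℝ) ^ 3 / Lg N + θ / 2 * (N : ℝ) ^ 3 / Lg N := by
      ring
    linarith
  have hcov : (Vb N).powerset ⊆ (Vb N).powerset.filter
      (fun A => lg N A ≤ K * N ^ 2 ∧ (sm N A : ℝ) ≤ θ * (N : ℝ) ^ 3) ∪
      ((Vb N).powerset.filter
      (fun A => (C₁ + 2) * β * (N : ℝ) ^ 2 < β * lg N A) ∪ (Vb N).powerset.filter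
      (fun A => θ * (N : ℝ) ^ 3 / Lg N < (sm N A : ℝ) / Lg N)) := by
    intro A hA
    simp only [Finset.mem_union, Finset.mem_filter, hA, true_and]
    by_cases h1 : lg N A ≤ K * N ^ 2
    · by_cases h2 : (sm N A : ℝ) ≤ θ * (N : ℝ) ^ 3
      · exact Or.inl ⟨h1, h2⟩
      · right; right
        push Not at h2
        gcongr
    · right; left
      push Not at h1
      have h1' : (K : ℝ) * (N : ℝ) ^ 2 < lg N A := by exact_mod_cast h1
      have h2 : (C₁ + 2) * (N : ℝ) ^ 2 ≤ (K : ℝ) * (N : ℝ) ^ 2 :=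
        mul_le_mul_of_nonneg_right hK (by positivity)
      have : β * ((C₁ + 2) * (N : ℝ) ^ 2) < β * lg N A :=
        mul_lt_mul_of_pos_left (lt_of_le_of_lt h2 h1') (by linarith)
      linarith
  have h1 : Z ≤ ZZ β N ((Vb N).powerset.filter
      (fun A => lg N A ≤ K * N ^ 2 ∧ (sm N A : ℝ) ≤ θ * (N : ℝ) ^ 3)) +
      (ZZ β N ((Vb N).powerset.filter
      (fun A => (C₁ + 2) * β * (N : ℝ) ^ 2 < β * lg N A)) + ZZ β N ((Vb N).powerset.filter
      (fun A => θ * (N : ℝ) ^ 3 / Lg N < (sm N A : ℝ) / Lg N))) := by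
    exact (h8_ZZ_mono β N hcov).trans ((h8_ZZ_union β N _ _).trans
      (add_le_add le_rfl (h8_ZZ_union β N _ _)))
  linarith

theorem cls_Out {N : ℕ} (A : Finset Site) : Out N (Pl N A) := by
  intro x hx
  simp [Pl, hx]

/-- the map for one configuration -/
theorem cls_map (hV : VRTStmt) (hE : ESLStmt) (hS : SEGStmt) (hA : ADJStmt)
    {N : ℕ} {A P : Finset Site} (hAV : A ⊆ Vb N) (hPV : P ⊆ Vb N) {sA lA : ℕ}
    (h1 : (symmDiff A P).card ≤ sA)
    (h2 : (bd ((symmDiff A P : Finset Site) : Set Site)).ncard + lA ≤ en N A)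
    (h3 : en N P = lA) {k a n : ℕ} (hka : k + a ≤ N) (ha : 1 ≤ a)
    (hn : 3 * (sA : ℤ) + |((Sl N k).card : ℤ) - n| ≤ (a : ℤ) ^ 3) :
    ∃ s : Bool, ∃ j ≤ a ^ 3,
      symmDiff (symmDiff (symmDiff A P) (Sl N k)) (seg (cor N a s) a j) ⊆ Vb N ∧
      (symmDiff (symmDiff (symmDiff A P) (Sl N k)) (seg (cor N a s) a j)).card = n ∧
      en N (symmDiff (symmDiff (symmDiff A P) (Sl N k)) (seg (cor N a s) a j)) ≤
        en N A + 4 * (2 * N + 1) * k + 6 * a ^ 2 := by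
  have hSlV : Sl N (k : ℤ) ⊆ Vb N := Finset.filter_subset _ _
  have hAP : symmDiff A P ⊆ Vb N := symmDiff_subset_Vb hAV hPV
  set B := symmDiff (symmDiff A P) (Sl N k) with hB
  have hBV : B ⊆ Vb N := symmDiff_subset_Vb hAP hSlV
  have hBS : symmDiff B (Sl N k) = symmDiff A P := by
    rw [hB, symmDiff_assoc, symmDiff_self, symmDiff_bot]
  have hcond : 3 * ((symmDiff B (Sl N k)).card : ℤ) + |((Sl N k).card : ℤ) - n| ≤
      (a : ℤ) ^ 3 := by
    rw [hBS]
    have : ((symmDiff A P).card : ℤ) ≤ sA := by exact_mod_cast h1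
    linarith
  obtain ⟨s, j, hj, hsub, hcard⟩ := hA N a n k B hBV (by positivity) (by exact_mod_cast hka) ha
    hcond
  refine ⟨s, j, hj, symmDiff_subset_Vb hBV hsub, hcard, ?_⟩
  have e1 : en N B ≤ en N (Sl N k) + (bd ((symmDiff A P : Finset Site) : Set Site)).ncard := by
    have := en_flip_le (A := Sl N k) hAP
    rwa [hB, symmDiff_comm (symmDiff A P) (Sl N k)]
  have e2 := (hE N k (by omega)).1
  have e3 := en_flip_le (A := B) hsub
  have e4 := (hS (cor N a s) a).1 j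
  have e5 : (2 * N + 1) ^ 2 ≤ en N P := by
    refine (hV N (Pl N P) (cls_Out P)).1.trans ?_
    unfold Vc en
    refine Finset.card_le_card ?_
    intro b hb
    rw [Finset.mem_filter] at hb ⊢
    exact ⟨hb.1, hb.2.2⟩
  rw [h3] at e5
  omega

/-- the number of plus sites of the flat configuration -/
theorem cls_num {N k n : ℕ} {b : ℝ} {m : ℤ} (hN : 1 ≤ N) (hb0 : 0 ≤ b) (hb1 : b ≤ 1)
    (hk1 : (k : ℝ) ≤ b * N / 8) (hk2 : b * N / 8 < k + 1) (hm : |(m : ℝ) - b * (N : ℝ) ^ 3| ≤ 2)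
    (hn : 2 * (n : ℤ) - (2 * (N : ℤ) + 1) ^ 3 = m) :
    |(((N + 1 + k) * (2 * N + 1) ^ 2 : ℕ) : ℝ) - n| ≤ 7 * (N : ℝ) ^ 2 := by
  have hNr : (1 : ℝ) ≤ N := by exact_mod_cast hN
  have hnr : 2 * (n : ℝ) - (2 * (N : ℝ) + 1) ^ 3 = m := by exact_mod_cast hn
  have hn' : (n : ℝ) = ((2 * (N : ℝ) + 1) ^ 3 + m) / 2 := by linarith
  have hm' := abs_le.1 hm
  have hk0 : (0 : ℝ) ≤ k := by positivity
  have key : (((N + 1 + k) * (2 * N + 1) ^ 2 : ℕ) : ℝ) - n =
      (2 * (N : ℝ) + 1) ^ 2 * (k + 1 / 2) - m / 2 := by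
    push_cast
    rw [hn']
    ring
  rw [key, abs_le]
  have hNN : (N : ℝ) ≤ (N : ℝ) ^ 2 := by nlinarith
  have hbN : b * N ≤ N := by nlinarith
  have hbN0 : 0 ≤ b * N := by positivity
  constructor
  · have h1 : 4 * (N : ℝ) ^ 2 * (b * N / 8 - 1 / 2) ≤ (2 * (N : ℝ) + 1) ^ 2 * (k + 1 / 2) := by
      have h2 : 4 * (N : ℝ) ^ 2 * (b * N / 8 - 1 / 2) ≤ 4 * (N : ℝ) ^ 2 * (k + 1 / 2) := by
        apply mul_le_mul_of_nonneg_left _ (by positivity)
        linarith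
      have h3 : 4 * (N : ℝ) ^ 2 * (k + 1 / 2) ≤ (2 * (N : ℝ) + 1) ^ 2 * (k + 1 / 2) := by
        apply mul_le_mul_of_nonneg_right _ (by positivity)
        nlinarith
      exact h2.trans h3
    have h4 : 4 * (N : ℝ) ^ 2 * (b * N / 8 - 1 / 2) = b * (N : ℝ) ^ 3 / 2 - 2 * (N : ℝ) ^ 2 := by
      ring
    nlinarith
  · have h1 : (2 * (N : ℝ) + 1) ^ 2 * (k + 1 / 2) ≤ (2 * (N : ℝ) + 1) ^ 2 * (b * N / 8 + 1 / 2) := by
      apply mul_le_mul_of_nonneg_left _ (by positivity)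
      linarith
    have h4 : (2 * (N : ℝ) + 1) ^ 2 * (b * N / 8 + 1 / 2) =
        b * (N : ℝ) ^ 3 / 2 + 2 * (N : ℝ) ^ 2 + (4 * N + 1) * (b * N / 8) + (4 * N + 1) / 2 := by
      ring
    have h5 : (4 * (N : ℝ) + 1) * (b * N / 8) ≤ (5 * N) * (N / 8) := by
      apply mul_le_mul _ _ (by positivity) (by positivity)
      · linarith
      · linarith
    nlinarith

theorem cls_Lam (N : ℕ) (A : Finset Site) : (Lam N A).card ≤ lg N A := by
  unfold Lam lg
  refine (Finset.card_union_le _ _).trans (Nat.add_le_add_left ?_ _)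
  exact Finset.card_biUnion_le

set_option maxHeartbeats 4000000 in
theorem cls (hF : FLKStmt) (hNL : NLAStmt) (hT1 : TY1Stmt) (hT2 : TY2Stmt) (hA : ADJStmt)
    (hE : ESLStmt) (hS : SEGStmt) (hV : VRTStmt) : CLSStmt := by
  intro η hη
  obtain ⟨K, hgood⟩ := cls_good hT1 hT2
  obtain ⟨C, hC⟩ := hNL
  -- the constants
  obtain ⟨c, hc0, hc1, hc2⟩ : ∃ c : ℝ, 0 < c ∧ c ≤ 1 / 2 ∧ 6 * c ^ 2 ≤ η / 4 := by
    refine ⟨min (1 / 2) (η / 12), by positivity, min_le_left _ _, ?_⟩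
    have h1 : min (1 / 2) (η / 12) ≤ 1 / 2 := min_le_left _ _
    have h2 : min (1 / 2) (η / 12) ≤ η / 12 := min_le_right _ _
    have h3 : 0 < min (1 / 2) (η / 12) := by positivity
    nlinarith
  set θ : ℝ := c ^ 3 / 6 with hθd
  have hθ : 0 < θ := by positivity
  obtain ⟨β₀, hgood⟩ := hgood θ hθ
  set M : ℝ := 7 + C * (1 + K) with hM
  refine ⟨max β₀ (max 1 (M / η)), fun β hβ => ?_⟩
  have hb1 : β₀ ≤ β := le_trans (le_max_left _ _) hβ
  have hb2 : 1 ≤ β := le_trans (le_trans (le_max_left _ _) (le_max_right _ _)) hβ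
  have hb3 : M ≤ η * β := by
    have : M / η ≤ β := le_trans (le_trans (le_max_right _ _) (le_max_right _ _)) hβ
    rw [div_le_iff₀ hη] at this
    linarith
  obtain ⟨N₀, hgood⟩ := hgood β hb1
  obtain ⟨N₁, hN₁⟩ := exists_nat_ge (14 / c ^ 3)
  obtain ⟨N₂, hN₂⟩ := exists_nat_ge (76 / η)
  refine ⟨max (max 8 N₀) (max N₁ N₂), fun N hN b hb0 hbb m hm hne => ?_⟩
  have hn0 : 8 ≤ N := le_trans (le_trans (le_max_left _ _) (le_max_left _ _)) hN
  have hn1 : N₀ ≤ N := le_trans (le_trans (le_max_right _ _) (le_max_left _ _)) hN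
  have hn2 : N₁ ≤ N := le_trans (le_trans (le_max_left _ _) (le_max_right _ _)) hN
  have hn3 : N₂ ≤ N := le_trans (le_trans (le_max_right _ _) (le_max_right _ _)) hN
  have hNr : (8 : ℝ) ≤ N := by exact_mod_cast hn0
  have hNc : 14 ≤ c ^ 3 * N := by
    have h3 : 14 / c ^ 3 ≤ N := hN₁.trans (by exact_mod_cast hn2)
    rw [div_le_iff₀ (by positivity)] at h3
    linarith
  have hNη : 76 ≤ η * N := by
    have h3 : 76 / η ≤ N := hN₂.trans (by exact_mod_cast hn3)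
    rw [div_le_iff₀ (by positivity)] at h3
    linarith
  have hgood := hgood N hn1
  obtain ⟨Ψ, hΨ⟩ := hF N
  obtain ⟨A₀, hA₀⟩ := hne
  rw [Cf, Finset.mem_filter, Finset.mem_powerset] at hA₀
  set n := A₀.card with hnd
  have hmn : 2 * (n : ℤ) - (2 * (N : ℤ) + 1) ^ 3 = m := by
    have := hA₀.2
    unfold mg at this
    rw [card_Vb] at this
    push_cast at this
    exact this
  set k : ℕ := ⌊b * N / 8⌋₊ with hk
  have hk1 : (k : ℝ) ≤ b * N / 8 := Nat.floor_le (by positivity)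
  have hk2 : b * N / 8 < k + 1 := Nat.lt_floor_add_one _
  set a : ℕ := ⌈c * N⌉₊ with had
  have ha1 : c * N ≤ a := Nat.le_ceil _
  have ha2 : (a : ℝ) < c * N + 1 := Nat.ceil_lt_add_one (by positivity)
  have ha3 : 1 ≤ a := Nat.one_le_ceil_iff.2 (by positivity)
  have hbN : b * N ≤ N := by nlinarith
  have hcN : c * N ≤ N / 2 := by nlinarith
  have hka : k + a ≤ N := by
    have : (k : ℝ) + a ≤ N := by linarith
    exact_mod_cast this
  have haN : (a : ℝ) ≤ N := by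
    have : a ≤ N := by omega
    exact_mod_cast this
  have hkN : k ≤ N := by omega
  have hnum := cls_num (by omega) hb0 hbb hk1 hk2 hm hmn
  -- the condition on the number of sites
  have hcnd : ∀ A : Finset Site, (sm N A : ℝ) ≤ θ * (N : ℝ) ^ 3 →
      3 * (sm N A : ℤ) + |((Sl N k).card : ℤ) - n| ≤ (a : ℤ) ^ 3 := by
    intro A hsm
    have h1 : 3 * (sm N A : ℝ) + |((Sl N k).card : ℝ) - n| ≤ (a : ℝ) ^ 3 := by
      rw [(hE N k hkN).2]
      have h2 : 3 * (sm N A : ℝ) ≤ c ^ 3 * (N : ℝ) ^ 3 / 2 := by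
        have : θ * (N : ℝ) ^ 3 = c ^ 3 * (N : ℝ) ^ 3 / 6 := by
          rw [hθd]; ring
        linarith
      have h3 : 7 * (N : ℝ) ^ 2 ≤ c ^ 3 * (N : ℝ) ^ 3 / 2 := by
        have : 14 * (N : ℝ) ^ 2 ≤ c ^ 3 * N * (N : ℝ) ^ 2 :=
          mul_le_mul_of_nonneg_right hNc (by positivity)
        nlinarith
      have h4 : (c * N) ^ 3 ≤ (a : ℝ) ^ 3 := by gcongr
      have h5 : (c * N) ^ 3 = c ^ 3 * (N : ℝ) ^ 3 := by ring
      linarith
    exact_mod_cast h1
  -- the energy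
  set D : ℝ := 4 * (2 * N + 1) * k + 6 * (a : ℝ) ^ 2 with hD
  have hDle : D ≤ (b + η / 2) * (N : ℝ) ^ 2 := by
    have h1 : 4 * (2 * (N : ℝ) + 1) * k ≤ 4 * (2 * N + 1) * (b * N / 8) := by
      apply mul_le_mul_of_nonneg_left hk1 (by positivity)
    have h2 : 4 * (2 * (N : ℝ) + 1) * (b * N / 8) = b * (N : ℝ) ^ 2 + b * N / 2 := by ring
    have h3 : (a : ℝ) ^ 2 ≤ (c * N + 1) ^ 2 := by gcongr
    have h4 : 6 * (c * (N : ℝ) + 1) ^ 2 = 6 * c ^ 2 * (N : ℝ) ^ 2 + 12 * (c * N) + 6 := by ring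
    have h5 : 6 * c ^ 2 * (N : ℝ) ^ 2 ≤ η / 4 * (N : ℝ) ^ 2 :=
      mul_le_mul_of_nonneg_right hc2 (by positivity)
    have h6 : 76 * (N : ℝ) ≤ η * N * N := mul_le_mul_of_nonneg_right hNη (by positivity)
    have h7 : (b + η / 2) * (N : ℝ) ^ 2 =
        b * (N : ℝ) ^ 2 + η / 4 * (N : ℝ) ^ 2 + η * N * N / 4 := by ring
    rw [hD, h7]
    linarith
  set G := (Vb N).powerset.filter
    (fun A => lg N A ≤ K * N ^ 2 ∧ (sm N A : ℝ) ≤ θ * (N : ℝ) ^ 3) with hG
  set LL := ((Vb N).powerset.image (Lam N)).filter (fun L => L.card ≤ K * N ^ 2) with hLL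
  set f : Finset Bond × Bool × ℕ → Finset Site → Finset Site := fun p A =>
    symmDiff (symmDiff (symmDiff A (Ψ p.1)) (Sl N k)) (seg (cor N a p.2.1) a p.2.2) with hf
  set DD := LL ×ˢ ((Finset.univ : Finset Bool) ×ˢ Finset.range (a ^ 3 + 1)) with hDD
  set F : Finset Bond × Bool × ℕ → Finset (Finset Site) := fun p =>
    G.filter (fun A => f p A ∈ Cf N m ∧ (en N (f p A) : ℝ) ≤ en N A + D) with hFd
  have hcov : G ⊆ DD.biUnion F := by
    intro A hAG
    have hAG' := hAG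
    rw [hG, Finset.mem_filter, Finset.mem_powerset] at hAG'
    obtain ⟨hAV, hlg, hsm⟩ := hAG'
    obtain ⟨hP1, hP2, hP3, hP4, -⟩ := hΨ A hAV
    obtain ⟨s, j, hj, q1, q2, q3⟩ := cls_map hV hE hS hA hAV hP1 hP2 hP3 hP4 hka ha3
      (hcnd A hsm)
    rw [Finset.mem_biUnion]
    refine ⟨(Lam N A, s, j), ?_, ?_⟩
    · rw [hDD]
      simp only [Finset.mem_product, Finset.mem_univ, true_and, Finset.mem_range]
      refine ⟨?_, by omega⟩
      rw [hLL, Finset.mem_filter]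
      exact ⟨Finset.mem_image_of_mem _ (Finset.mem_powerset.2 hAV), (cls_Lam N A).trans hlg⟩
    · rw [hFd, Finset.mem_filter]
      refine ⟨hAG, ?_, ?_⟩
      · rw [Cf, Finset.mem_filter, Finset.mem_powerset]
        refine ⟨q1, ?_⟩
        unfold mg
        rw [card_Vb]
        have : ((f (Lam N A, s, j) A).card : ℤ) = n := by exact_mod_cast q2
        rw [this]
        push_cast
        exact hmn
      · rw [hD]
        have : (en N (f (Lam N A, s, j) A) : ℝ) ≤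
            ((en N A + 4 * (2 * N + 1) * k + 6 * a ^ 2 : ℕ) : ℝ) := by exact_mod_cast q3
        refine this.trans (le_of_eq ?_)
        push_cast
        ring
  have hsum : ZZ β N G ≤ ∑ p ∈ DD, Real.exp (2 * β * D) * ZZ β N (Cf N m) := by
    refine (h8_ZZ_mono β N hcov).trans ((h8_ZZ_biUnion β N _ F).trans
      (Finset.sum_le_sum fun p hp => ?_))
    unfold ZZ
    rw [Finset.mul_sum]
    have h2 : ∑ A ∈ F p, wt β N A ≤ ∑ A ∈ F p, Real.exp (2 * β * D) * wt β N (f p A) := by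
      refine Finset.sum_le_sum fun A hA => ?_
      rw [hFd, Finset.mem_filter] at hA
      exact h8_wt_le (by linarith) hA.2.2
    refine h2.trans ?_
    have hinj : Set.InjOn (f p) (F p : Set (Finset Site)) := by
      intro A _ A' _ h
      exact symmDiff_left_injective _ (symmDiff_left_injective _ (symmDiff_left_injective _ h))
    have h3 := Finset.sum_image (f := fun A' => Real.exp (2 * β * D) * wt β N A') hinj
    rw [← h3]
    refine Finset.sum_le_sum_of_subset_of_nonneg ?_ ?_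
    · intro A' hA'
      rw [Finset.mem_image] at hA'
      obtain ⟨A, hA, rfl⟩ := hA'
      rw [hFd, Finset.mem_filter] at hA
      exact hA.2.1
    · intro A' _ _
      exact mul_nonneg (Real.exp_pos _).le (wt_pos β N A').le
  rw [Finset.sum_const, nsmul_eq_mul] at hsum
  set W := ZZ β N (Cf N m) with hW
  have hW0 : 0 ≤ W := h8_ZZ_nonneg _ _ _
  -- the number of data
  have hcard : 2 * (DD.card : ℝ) ≤ Real.exp (M * (N : ℝ) ^ 2) := by
    have h1 : DD.card = LL.card * (2 * (a ^ 3 + 1)) := by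
      rw [hDD, Finset.card_product, Finset.card_product, Finset.card_range]
      simp
    have h2 : (LL.card : ℝ) ≤ Real.exp (C * (1 + K) * (N : ℝ) ^ 2) := by
      have h3 : LL.card ≤ 2 ^ (C * (N + K * N ^ 2)) := hC N (K * N ^ 2) (by omega)
      have h4 : (LL.card : ℝ) ≤ 2 ^ (C * (N + K * N ^ 2)) := by exact_mod_cast h3
      have h5 : (2 : ℝ) ≤ Real.exp 1 := by
        have := Real.add_one_le_exp (1 : ℝ)
        linarith
      have h6 : (2 : ℝ) ^ (C * (N + K * N ^ 2)) ≤ Real.exp 1 ^ (C * (N + K * N ^ 2)) :=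
        pow_le_pow_left₀ (by norm_num) h5 _
      refine h4.trans (h6.trans ?_)
      rw [← Real.exp_nat_mul]
      apply Real.exp_le_exp.2
      push_cast
      have h7 : (N : ℝ) ≤ (N : ℝ) ^ 2 := by nlinarith
      have h8 : (C : ℝ) * (N + K * (N : ℝ) ^ 2) ≤ C * ((1 + K) * (N : ℝ) ^ 2) := by
        apply mul_le_mul_of_nonneg_left _ (by positivity)
        linarith
      linarith
    have h3 : 4 * ((a : ℝ) ^ 3 + 1) ≤ Real.exp (7 * (N : ℝ) ^ 2) := by
      have h4 : (a : ℝ) ^ 3 ≤ (N : ℝ) ^ 3 := by gcongr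
      have h5 : (1 : ℝ) ≤ (N : ℝ) ^ 3 := one_le_pow₀ (by linarith)
      have h6 : (8 : ℝ) ≤ Real.exp (3 * (N : ℝ) ^ 2) := by
        have := Real.add_one_le_exp (3 * (N : ℝ) ^ 2)
        nlinarith
      have h7 : (N : ℝ) ≤ Real.exp (N : ℝ) := by
        have := Real.add_one_le_exp (N : ℝ)
        linarith
      have h8 : (N : ℝ) ^ 3 ≤ Real.exp (4 * (N : ℝ) ^ 2) := by
        calc (N : ℝ) ^ 3 ≤ Real.exp (N : ℝ) ^ 3 := by gcongr
          _ = Real.exp (3 * N) := by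
            rw [← Real.exp_nat_mul]
            norm_num
          _ ≤ _ := by
            apply Real.exp_le_exp.2
            nlinarith
      calc 4 * ((a : ℝ) ^ 3 + 1) ≤ 8 * (N : ℝ) ^ 3 := by linarith
        _ ≤ Real.exp (3 * (N : ℝ) ^ 2) * Real.exp (4 * (N : ℝ) ^ 2) := by
          apply mul_le_mul h6 h8 (by positivity) (Real.exp_pos _).le
        _ = _ := by
          rw [← Real.exp_add]
          congr 1
          ring
    have h4 : 2 * (DD.card : ℝ) = LL.card * (4 * ((a : ℝ) ^ 3 + 1)) := by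
      rw [h1]
      push_cast
      ring
    rw [h4]
    calc (LL.card : ℝ) * (4 * ((a : ℝ) ^ 3 + 1)) ≤
        Real.exp (C * (1 + K) * (N : ℝ) ^ 2) * Real.exp (7 * (N : ℝ) ^ 2) :=
          mul_le_mul h2 h3 (by positivity) (Real.exp_pos _).le
      _ = _ := by
        rw [← Real.exp_add, hM]
        congr 1
        ring
  have e1 : Real.exp (M * (N : ℝ) ^ 2) ≤ Real.exp (β * η * (N : ℝ) ^ 2) := by
    apply Real.exp_le_exp.2
    apply mul_le_mul_of_nonneg_right _ (by positivity)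
    linarith
  have e2 : Real.exp (2 * β * D) ≤ Real.exp (2 * β * ((b + η / 2) * (N : ℝ) ^ 2)) := by
    apply Real.exp_le_exp.2
    apply mul_le_mul_of_nonneg_left hDle (by linarith)
  calc ZZ β N (Vb N).powerset ≤ 2 * ZZ β N G := hgood
    _ ≤ 2 * ((DD.card : ℝ) * (Real.exp (2 * β * D) * W)) := by linarith
    _ = 2 * (DD.card : ℝ) * Real.exp (2 * β * D) * W := by ring
    _ ≤ Real.exp (β * η * (N : ℝ) ^ 2) * Real.exp (2 * β * ((b + η / 2) * (N : ℝ) ^ 2)) * W := by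
      apply mul_le_mul_of_nonneg_right _ hW0
      exact mul_le_mul (hcard.trans e1) e2 (Real.exp_pos _).le (Real.exp_pos _).le
    _ = Real.exp (2 * β * (b + η) * (N : ℝ) ^ 2) * W := by
      rw [← Real.exp_add]
      congr 2
      ring

end Pool.ISH
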